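import Pool.Agent.R230.DR.P4

open MeasureTheory Set FourierTransform
open scoped ENNReal Real

namespace Pool.Agent.Results.MP_38bcdd_an.DyadicRiesz

open Pool.Agent.R230.DR (gfun G zpow_ne two_zpow_pos zpow_lt_two_mul)

/-- Complex `L²(ℝ)`. -/
abbrev L2 : Type := Lp ℂ 2 (volume : Measure ℝ)

/-- A family `w` is a Riesz basis of `L²(ℝ)`: two-sided `ℓ²` bounds for finite
combinations, and dense linear span. -/
def IsRieszBasis {J : Type} (w : J → L2) : Prop :=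
  (∃ c K : ℝ, 0 < c ∧ ∀ (s : Finset J) (x : J → ℂ),
    c * ∑ j ∈ s, ‖x j‖ ^ 2 ≤ ‖∑ j ∈ s, x j • w j‖ ^ 2 ∧
    ‖∑ j ∈ s, x j • w j‖ ^ 2 ≤ K * ∑ j ∈ s, ‖x j‖ ^ 2) ∧
  (Submodule.span ℂ (Set.range w)).topologicalClosure = ⊤

/-- The family is orthogonal. -/
def IsOrthogonalFamily {J : Type} (w : J → L2) : Prop :=
  ∀ j j', j ≠ j' → inner ℂ (w j) (w j') = 0

/-- The standing assumptions on `Ω_i`, `A`, `Λ_i` for `G = ℝ`: the `Ω_i` are pairwise disjoint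
measurable sets of finite positive measure, `A` is a countable set of nonzero reals (acting by
multiplication) and the `Λ_i` are countable. -/
structure Admissible {m : ℕ} (Ω : Fin m → Set ℝ) (A : Set ℝ) (Λ : Fin m → Set ℝ) : Prop where
  meas : ∀ i, MeasurableSet (Ω i)
  pos : ∀ i, volume (Ω i) ≠ 0
  fin : ∀ i, volume (Ω i) ≠ ∞
  disj : ∀ i j, i ≠ j → Disjoint (Ω i) (Ω j)
  countA : A.Countable
  ne : ∀ a ∈ A, a ≠ 0
  countΛ : ∀ i, (Λ i).Countable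

/-- `w` is the system `ψ_{i,λ,a}(x) = |a|^{1/2} ψ_i(a x - λ)`, where the `L²` Fourier transform
of `ψ_i` is the indicator function of `Ω_i`. -/
def IsWaveletSystem {m : ℕ} (Ω : Fin m → Set ℝ) (A : Set ℝ) (Λ : Fin m → Set ℝ)
    (w : (i : Fin m) × (Λ i × A) → L2) : Prop :=
  ∃ ψ : Fin m → L2,
    (∀ i, ((𝓕 (ψ i) : L2) : ℝ → ℂ) =ᵐ[volume] (Ω i).indicator fun _ => (1 : ℂ)) ∧
    ∀ (i : Fin m) (l : Λ i) (a : A), (w ⟨i, l, a⟩ : ℝ → ℂ) =ᵐ[volume]
      fun x => ((√|(a : ℝ)| : ℝ) : ℂ) * ψ i ((a : ℝ) * x - (l : ℝ))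

/-- The multiplicity function `∑_{a ∈ A} 1_{aΩ}(ξ)`. -/
noncomputable def multiplicity (A : Set ℝ) (Ω : Set ℝ) (ξ : ℝ) : ℕ∞ :=
  Set.encard {a | a ∈ A ∧ ξ / a ∈ Ω}

/-- The set `[-1,-1/2) ∪ [1/2,5/4)`. -/
def Om : Set ℝ := Ico (-1) (-1 / 2) ∪ Ico (1 / 2) (5 / 4)

/-- The powers of two. -/
def dyadic : Set ℝ := Set.range fun n : ℤ => (2 : ℝ) ^ n

/-- The integers, as a set of reals. -/
def ints : Set ℝ := Set.range fun k : ℤ => (k : ℝ)

lemma measOm : MeasurableSet Om := measurableSet_Ico.union measurableSet_Ico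

lemma volOm : volume Om ≠ ∞ := Pool.Agent.R230.DR.volOm

lemma dyadic_ne {a : ℝ} (ha : a ∈ dyadic) : a ≠ 0 := by
  obtain ⟨n, rfl⟩ := ha
  exact zpow_ne n

/-- The system. -/
noncomputable def w (j : (_ : Fin 1) × (ints × dyadic)) : L2 :=
  𝓕⁻ (G measOm volOm (dyadic_ne j.2.2.2) (j.2.1 : ℝ))

lemma admissible : Admissible (fun _ : Fin 1 => Om) dyadic (fun _ => ints) where
  meas := fun _ => measOm
  pos := fun _ => by
    have h1 : (0 : ℝ≥0∞) < volume (Ico (-1 : ℝ) (-1 / 2)) := by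
      rw [Real.volume_Ico]
      exact ENNReal.ofReal_pos.2 (by norm_num)
    exact (h1.trans_le (measure_mono subset_union_left)).ne'
  fin := fun _ => volOm
  disj := fun i j hij => absurd (Subsingleton.elim i j) hij
  countA := Set.countable_range _
  ne := fun a ha => dyadic_ne ha
  countΛ := fun _ => Set.countable_range _

lemma isSystem : IsWaveletSystem (fun _ : Fin 1 => Om) dyadic (fun _ => ints) w := by
  refine ⟨fun _ => 𝓕⁻ (G measOm volOm one_ne_zero 0), fun i => ?_, fun i l a => ?_⟩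
  · rw [FourierTransform.fourier_fourierInv_eq]
    have h1 := (Pool.Agent.R230.DR.memLp_gfun measOm volOm one_ne_zero 0 2).coeFn_toLp
    show _ =ᵐ[volume] Om.indicator fun _ => (1 : ℂ)
    rw [← Pool.Agent.R230.DR.gfun_one Om]
    exact h1
  · exact Pool.Agent.R230.DR.fourierInv_G_ae measOm volOm (dyadic_ne a.2) (l : ℝ)

/-- The indexing of the family by pairs of integers. -/
noncomputable def e : ℤ × ℤ ≃ (_ : Fin 1) × (ints × dyadic) :=
  Equiv.ofBijective (fun j => ⟨0, ⟨⟨(j.2 : ℝ), j.2, rfl⟩, ⟨(2 : ℝ) ^ j.1, j.1, rfl⟩⟩⟩) (by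
    constructor
    · rintro ⟨n, k⟩ ⟨m, l⟩ h
      simp only [Sigma.mk.injEq, heq_eq_eq, true_and, Prod.mk.injEq] at h
      have h1 : (k : ℝ) = l := congrArg Subtype.val h.1
      have h2 : (2 : ℝ) ^ n = 2 ^ m := congrArg Subtype.val h.2
      have h3 : n = m := zpow_right_injective₀ (by norm_num) (by norm_num) h2
      rw [Int.cast_inj.1 h1, h3]
    · rintro ⟨i, ⟨_, k, rfl⟩, ⟨_, n, rfl⟩⟩
      refine ⟨(n, k), ?_⟩
      rw [Subsingleton.elim i 0])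

lemma w_e (j : ℤ × ℤ) : w (e j) = 𝓕⁻ (G measOm volOm (zpow_ne j.1) (j.2 : ℝ)) := rfl

lemma norm_sum_w (s : Finset (ℤ × ℤ)) (x : ℤ × ℤ → ℂ) :
    ‖∑ j ∈ s, x j • w (e j)‖ =
      ‖∑ j ∈ s, x j • G measOm volOm (zpow_ne j.1) (j.2 : ℝ)‖ := by
  have h1 : ∑ j ∈ s, x j • w (e j) = (Lp.fourierTransformₗᵢ ℝ ℂ).symm
      (∑ j ∈ s, x j • G measOm volOm (zpow_ne j.1) (j.2 : ℝ)) := by
    rw [map_sum]
    refine Finset.sum_congr rfl fun j _ => ?_
    rw [map_smul]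
    rfl
  rw [h1, LinearIsometryEquiv.norm_map]

lemma bounds (s : Finset (ℤ × ℤ)) (x : ℤ × ℤ → ℂ) :
    1 / 4 * ∑ j ∈ s, ‖x j‖ ^ 2 ≤ ‖∑ j ∈ s, x j • w (e j)‖ ^ 2 ∧
    ‖∑ j ∈ s, x j • w (e j)‖ ^ 2 ≤ 4 * ∑ j ∈ s, ‖x j‖ ^ 2 := by
  rw [norm_sum_w]
  have hB : ‖∑ j ∈ s, x j • G Pool.Agent.R230.DR.measB Pool.Agent.R230.DR.volB
      (zpow_ne j.1) (j.2 : ℝ)‖ ^ 2 = ∑ j ∈ s, ‖x j‖ ^ 2 := by
    have h1 := Pool.Agent.R230.DR.orthonormal_B.inner_sum x x s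
    have h2 : (∑ i ∈ s, (starRingEnd ℂ) (x i) * x i) = ((∑ j ∈ s, ‖x j‖ ^ 2 : ℝ) : ℂ) := by
      push_cast
      refine Finset.sum_congr rfl fun j _ => ?_
      rw [mul_comm, Complex.mul_conj, Complex.normSq_eq_norm_sq]
      push_cast
      rfl
    rw [h2] at h1
    rw [← inner_self_eq_norm_sq (𝕜 := ℂ), h1]
    exact Complex.ofReal_re _
  have h1 := Pool.Agent.R230.DR.norm_C_le_Om s x
  have h2 := Pool.Agent.R230.DR.norm_C_le_B s x
  have h3 := Pool.Agent.R230.DR.sum_Om s x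
  have h4 : ‖∑ j ∈ s, x j • G Pool.Agent.R230.DR.measB Pool.Agent.R230.DR.volB
      (zpow_ne j.1) (j.2 : ℝ)‖ ≤ 2 * ‖∑ j ∈ s, x j • G measOm volOm (zpow_ne j.1)
      (j.2 : ℝ)‖ := by
    have h5 := eq_sub_of_add_eq h3.symm
    rw [h5]
    refine (norm_sub_le _ _).trans ?_
    have h6 : ‖∑ j ∈ s, x j • G Pool.Agent.R230.DR.measOm Pool.Agent.R230.DR.volOm
      (zpow_ne j.1) (j.2 : ℝ)‖ = ‖∑ j ∈ s, x j • G measOm volOm (zpow_ne j.1)
      (j.2 : ℝ)‖ := rfl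
    linarith
  have h7 : ‖∑ j ∈ s, x j • G measOm volOm (zpow_ne j.1) (j.2 : ℝ)‖ ≤
      2 * ‖∑ j ∈ s, x j • G Pool.Agent.R230.DR.measB Pool.Agent.R230.DR.volB
      (zpow_ne j.1) (j.2 : ℝ)‖ := by
    have h8 : ‖∑ j ∈ s, x j • G Pool.Agent.R230.DR.measOm Pool.Agent.R230.DR.volOm
      (zpow_ne j.1) (j.2 : ℝ)‖ ≤ _ := (congrArg norm h3).le.trans (norm_add_le _ _)
    refine h8.trans ?_
    linarith
  rw [← hB]
  constructor
  · nlinarith [norm_nonneg (∑ j ∈ s, x j • G Pool.Agent.R230.DR.measB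
      Pool.Agent.R230.DR.volB (zpow_ne j.1) (j.2 : ℝ)),
      norm_nonneg (∑ j ∈ s, x j • G measOm volOm (zpow_ne j.1) (j.2 : ℝ))]
  · nlinarith [norm_nonneg (∑ j ∈ s, x j • G Pool.Agent.R230.DR.measB
      Pool.Agent.R230.DR.volB (zpow_ne j.1) (j.2 : ℝ)),
      norm_nonneg (∑ j ∈ s, x j • G measOm volOm (zpow_ne j.1) (j.2 : ℝ))]

lemma isRiesz : IsRieszBasis w := by
  constructor
  · refine ⟨1 / 4, 4, by norm_num, fun s x => ?_⟩
    have h1 := bounds (s.map e.symm.toEmbedding) (fun j => x (e j))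
    simp only [Finset.sum_map, Equiv.coe_toEmbedding, Equiv.apply_symm_apply] at h1
    exact h1
  · rw [Submodule.topologicalClosure_eq_top_iff, Submodule.eq_bot_iff]
    intro f hf
    rw [Submodule.mem_orthogonal] at hf
    have h1 : (𝓕 f : L2) = 0 := by
      apply Pool.Agent.R230.DR.complete
      intro n k
      have h2 := hf (w (e (n, k))) (Submodule.subset_span ⟨_, rfl⟩)
      rw [w_e, ← Lp.inner_fourier_eq, FourierTransform.fourier_fourierInv_eq] at h2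
      exact h2
    have h3 : ‖f‖ = 0 := by
      rw [← Lp.norm_fourier_eq, h1, norm_zero]
    exact norm_eq_zero.1 h3

lemma not_orthogonal : ¬ IsOrthogonalFamily w := by
  intro h
  have h1 := h (e (0, 0)) (e (0, 2)) (fun h2 => by
    have := e.injective h2
    simp at this)
  rw [w_e, w_e, ← Lp.inner_fourier_eq, FourierTransform.fourier_fourierInv_eq,
    FourierTransform.fourier_fourierInv_eq] at h1
  have h2 := Pool.Agent.R230.DR.inner_same measOm volOm (zpow_ne 0) 0 2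
  simp only at h1
  rw [h1] at h2
  unfold Om at h2
  have hd : Disjoint (Ico (-1 : ℝ) (-1 / 2)) (Ico (1 / 2) (5 / 4)) := by
    rw [Set.disjoint_left]
    rintro x ⟨_, h1⟩ ⟨h2, _⟩
    linarith
  rw [setIntegral_union hd measurableSet_Ico
    (Pool.Agent.R230.DR.integrableOn_exp _ _ _)
    (Pool.Agent.R230.DR.integrableOn_exp _ _ _)] at h2
  have hc : (-2 * π * Complex.I * ((2 - 0 : ℤ) : ℂ)) ≠ 0 :=
    mul_ne_zero (mul_ne_zero (mul_ne_zero (by norm_num)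
      (Complex.ofReal_ne_zero.2 Real.pi_ne_zero)) Complex.I_ne_zero) (by norm_num)
  rw [Pool.Agent.R230.DR.int_Ico _ _ (by norm_num) _ hc,
    Pool.Agent.R230.DR.int_Ico _ _ (by norm_num) _ hc, ← add_div] at h2
  have e1 : Complex.exp ((-2 * π * Complex.I * ((2 - 0 : ℤ) : ℂ)) * ((-1 / 2 : ℝ) : ℂ)) = 1 := by
    have : (-2 * π * Complex.I * ((2 - 0 : ℤ) : ℂ)) * ((-1 / 2 : ℝ) : ℂ) =
        ((1 : ℤ) : ℂ) * (2 * π * Complex.I) := by push_cast; ring
    rw [this, Complex.exp_int_mul_two_pi_mul_I]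
  have e2 : Complex.exp ((-2 * π * Complex.I * ((2 - 0 : ℤ) : ℂ)) * ((-1 : ℝ) : ℂ)) = 1 := by
    have : (-2 * π * Complex.I * ((2 - 0 : ℤ) : ℂ)) * ((-1 : ℝ) : ℂ) =
        ((2 : ℤ) : ℂ) * (2 * π * Complex.I) := by push_cast; ring
    rw [this, Complex.exp_int_mul_two_pi_mul_I]
  have e3 : Complex.exp ((-2 * π * Complex.I * ((2 - 0 : ℤ) : ℂ)) * ((1 / 2 : ℝ) : ℂ)) = 1 := by
    have : (-2 * π * Complex.I * ((2 - 0 : ℤ) : ℂ)) * ((1 / 2 : ℝ) : ℂ) =
        ((-1 : ℤ) : ℂ) * (2 * π * Complex.I) := by push_cast; ring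
    rw [this, Complex.exp_int_mul_two_pi_mul_I]
  have e4 : Complex.exp ((-2 * π * Complex.I * ((2 - 0 : ℤ) : ℂ)) * ((5 / 4 : ℝ) : ℂ)) = -1 := by
    have : (-2 * π * Complex.I * ((2 - 0 : ℤ) : ℂ)) * ((5 / 4 : ℝ) : ℂ) =
        π * Complex.I + ((-3 : ℤ) : ℂ) * (2 * π * Complex.I) := by push_cast; ring
    rw [this, Complex.exp_add, Complex.exp_int_mul_two_pi_mul_I, Complex.exp_pi_mul_I, mul_one]
  rw [e1, e2, e3, e4] at h2
  have h3 : (0 : ℂ) = (1 - 1 + (-1 - 1)) / (-2 * π * Complex.I * ((2 - 0 : ℤ) : ℂ)) := h2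
  rw [eq_div_iff hc] at h3
  norm_num at h3

lemma mult_one (n : ℤ) (ξ : ℝ) (hξ : ξ ∈ Ioo (-(2 : ℝ) ^ n) (-(2 : ℝ) ^ n / 2)) :
    multiplicity dyadic Om ξ = 1 := by
  unfold multiplicity
  have h1 : {a | a ∈ dyadic ∧ ξ / a ∈ Om} = {(2 : ℝ) ^ n} := by
    have hn := two_zpow_pos n
    ext a
    constructor
    · rintro ⟨⟨m, rfl⟩, h⟩
      have hm := two_zpow_pos m
      simp only at h
      rcases h with h | h
      · obtain ⟨a1, a2⟩ := h
        rw [le_div_iff₀ hm] at a1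
        rw [div_lt_iff₀ hm] at a2
        have : m = n := le_antisymm (zpow_lt_two_mul (by linarith [hξ.1, hξ.2]))
          (zpow_lt_two_mul (by linarith [hξ.1, hξ.2]))
        rw [this]
        rfl
      · obtain ⟨a1, a2⟩ := h
        rw [le_div_iff₀ hm] at a1
        exfalso
        linarith [hξ.1, hξ.2]
    · intro h
      have h' : a = 2 ^ n := h
      subst h'
      refine ⟨⟨n, rfl⟩, Or.inl ⟨?_, ?_⟩⟩
      · rw [le_div_iff₀ hn]
        linarith [hξ.1]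
      · rw [div_lt_iff₀ hn]
        linarith [hξ.2]
  rw [h1, encard_singleton]

lemma mult_two (n : ℤ) (ξ : ℝ) (hξ : ξ ∈ Ioo ((2 : ℝ) ^ n) (5 / 4 * (2 : ℝ) ^ n)) :
    multiplicity dyadic Om ξ = 2 := by
  unfold multiplicity
  have hn1 : (2 : ℝ) ^ (n + 1) = 2 * 2 ^ n := by
    rw [zpow_add₀ (by norm_num), zpow_one]
    ring
  have hn := two_zpow_pos n
  have h1 : {a | a ∈ dyadic ∧ ξ / a ∈ Om} = {(2 : ℝ) ^ n, (2 : ℝ) ^ (n + 1)} := by
    ext a
    constructor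
    · rintro ⟨⟨m, rfl⟩, h⟩
      have hm := two_zpow_pos m
      simp only at h
      rcases h with h | h
      · obtain ⟨a1, a2⟩ := h
        rw [div_lt_iff₀ hm] at a2
        exfalso
        linarith [hξ.1, hξ.2]
      · obtain ⟨a1, a2⟩ := h
        rw [le_div_iff₀ hm] at a1
        rw [div_lt_iff₀ hm] at a2
        have h3 : n ≤ m := zpow_lt_two_mul (by linarith [hξ.1, hξ.2])
        have h4 : m ≤ n + 1 := zpow_lt_two_mul (by rw [hn1]; linarith [hξ.1, hξ.2])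
        have h5 : m = n ∨ m = n + 1 := by omega
        rcases h5 with rfl | rfl
        · exact Or.inl rfl
        · exact Or.inr rfl
    · rintro (h | h)
      · have h' : a = 2 ^ n := h
        subst h'
        refine ⟨⟨n, rfl⟩, Or.inr ⟨?_, ?_⟩⟩
        · rw [le_div_iff₀ hn]
          linarith [hξ.1]
        · rw [div_lt_iff₀ hn]
          linarith [hξ.2]
      · have h' : a = 2 ^ (n + 1) := h
        subst h'
        refine ⟨⟨n + 1, rfl⟩, Or.inr ⟨?_, ?_⟩⟩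
        · rw [le_div_iff₀ (by positivity), hn1]
          linarith [hξ.1]
        · rw [div_lt_iff₀ (by positivity), hn1]
          linarith [hξ.2]
  rw [h1, encard_pair]
  rw [hn1]
  intro h
  linarith

/-- Q1 has a negative answer for `G = ℝ`, already with `m = 1`, `Λ = ℤ` and the dyadic
dilations. -/
theorem result :
    (¬ ∀ (m : ℕ) (Ω : Fin m → Set ℝ) (A : Set ℝ) (Λ : Fin m → Set ℝ)
        (w : (i : Fin m) × (Λ i × A) → L2),
        Admissible Ω A Λ → IsWaveletSystem Ω A Λ w → IsRieszBasis w →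
        ¬ IsOrthogonalFamily w →
        ∃ k : ℕ, 1 ≤ k ∧ ∀ᵐ ξ : ℝ, multiplicity A (⋃ i, Ω i) ξ = k) ∧
    (∃ w : (_ : Fin 1) × (ints × dyadic) → L2,
        Admissible (fun _ : Fin 1 => Om) dyadic (fun _ => ints) ∧
        IsWaveletSystem (fun _ : Fin 1 => Om) dyadic (fun _ => ints) w ∧
        IsRieszBasis w ∧ ¬ IsOrthogonalFamily w ∧
        ∀ n : ℤ, (∀ ξ ∈ Ioo (-(2 : ℝ) ^ n) (-(2 : ℝ) ^ n / 2),
            multiplicity dyadic Om ξ = 1) ∧
          (∀ ξ ∈ Ioo ((2 : ℝ) ^ n) (5 / 4 * (2 : ℝ) ^ n),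
            multiplicity dyadic Om ξ = 2)) := by
  constructor
  · intro h
    obtain ⟨k, _, hk⟩ := h 1 (fun _ => Om) dyadic (fun _ => ints) w admissible isSystem
      isRiesz not_orthogonal
    rw [iUnion_const] at hk
    have h1 : k = 1 := by
      have h2 : ∃ ξ ∈ Ioo (-(2 : ℝ) ^ (0 : ℤ)) (-(2 : ℝ) ^ (0 : ℤ) / 2),
          multiplicity dyadic Om ξ = k := by
        by_contra hne
        push Not at hne
        have h3 : volume (Ioo (-(2 : ℝ) ^ (0 : ℤ)) (-(2 : ℝ) ^ (0 : ℤ) / 2)) = 0 :=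
          measure_mono_null (fun ξ hξ => hne ξ hξ) hk
        rw [Real.volume_Ioo, ENNReal.ofReal_eq_zero] at h3
        norm_num at h3
      obtain ⟨ξ, hξ, h4⟩ := h2
      rw [mult_one 0 ξ hξ] at h4
      exact_mod_cast h4.symm
    have h2 : k = 2 := by
      have h2 : ∃ ξ ∈ Ioo ((2 : ℝ) ^ (0 : ℤ)) (5 / 4 * (2 : ℝ) ^ (0 : ℤ)),
          multiplicity dyadic Om ξ = k := by
        by_contra hne
        push Not at hne
        have h3 : volume (Ioo ((2 : ℝ) ^ (0 : ℤ)) (5 / 4 * (2 : ℝ) ^ (0 : ℤ))) = 0 :=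
          measure_mono_null (fun ξ hξ => hne ξ hξ) hk
        rw [Real.volume_Ioo, ENNReal.ofReal_eq_zero] at h3
        norm_num at h3
      obtain ⟨ξ, hξ, h4⟩ := h2
      rw [mult_two 0 ξ hξ] at h4
      exact_mod_cast h4.symm
    omega
  · exact ⟨w, admissible, isSystem, isRiesz, not_orthogonal,
      fun n => ⟨mult_one n, mult_two n⟩⟩

end Pool.Agent.Results.MP_38bcdd_an.DyadicRiesz
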